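import Pool.Agent.H60.LQ.Cfg
import Pool.Agent.H32.Dense.Pair

/-!
# LQ, row UFC2: the first coefficient is uniform, explicit
-/

set_option autoImplicit false

namespace Pool.LQ

open Finset Real
open Pool.Agent.H49.Ent Pool.Agent.H32.Dense Pool.KTH

namespace UFC42

variable {d J : ℕ}

lemma eg_nonneg (F : Cf d J) (x y : F.Ω → ℤ) : 0 ≤ F.eg x y := by
  refine Ex_nonneg F.hq fun w _ => ?_
  unfold gp
  refine Real.log_nonneg ?_
  have : (0 : ℝ) ≤ 2 ^ J / max 1 |(x w : ℝ) - y w| := by positivity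
  linarith

lemma Ex_log_nonneg {Ω : Type} [Fintype Ω] {q : Ω → ℝ} (hq : ∀ w, 0 ≤ q w) (f : Ω → ℝ)
    (hf : ∀ w, 0 ≤ f w) : 0 ≤ Ex q (fun w => Real.log (1 + f w)) :=
  Ex_nonneg hq fun w _ => Real.log_nonneg (by linarith [hf w])

lemma log_nn (J : ℕ) : 0 ≤ Real.log ((J : ℝ) + 2) :=
  Real.log_nonneg (by
    have : (0 : ℝ) ≤ J := Nat.cast_nonneg J
    linarith)

/-- The time `r`, given the first coefficient and the ratio. -/
lemma r_of_c (F : Cf d J) {T : Type*} (W : F.Ω → T)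
    (hW : ∀ w w', 0 < F.q w → 0 < F.q w' → W w = W w' → F.k₁ w = F.k₁ w' ∧ F.t w = F.t w') :
    CH F.q F.r (fun w => (F.c w, W w)) ≤ 1 + Ex F.q (fun w => Real.log (1 + |F.k₁ w|⁻¹)) := by
  have h1 := CH_le_int F.hq F.h1 F.r (fun w => (F.c w, W w)) (fun w => |F.k₁ w|⁻¹)
    (fun w w' a b e => by
      have e1 := (Prod.ext_iff.mp e).1
      obtain ⟨e2, e2'⟩ := hW w w' a b (Prod.ext_iff.mp e).2
      have e3 : ⌊F.k₁ w * (((F.r w - F.t w : ℤ)) : ℝ)⌋ =
          ⌊F.k₁ w * (((F.r w' - F.t w : ℤ)) : ℝ)⌋ := by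
        have e4 : ⌊F.k₁ w * ((F.r w : ℝ) - F.t w)⌋ = ⌊F.k₁ w' * ((F.r w' : ℝ) - F.t w')⌋ := e1
        push_cast
        rw [e4, e2, e2']
      have := floor_eq_close (kap_pos (F.t w) (F.s w) (F.t₁ w)) e3
      push_cast at this ⊢
      have e5 : (F.r w : ℝ) - F.r w' = (F.r w - F.t w) - (F.r w' - F.t w) := by ring
      rw [e5]
      exact this)
  refine h1.trans ?_
  calc Ex F.q (fun w => Real.log (2 * |F.k₁ w|⁻¹ + 1)) ≤
      Ex F.q (fun w => 1 + Real.log (1 + |F.k₁ w|⁻¹)) :=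
        Ex_mono F.hq fun w _ => log_two_mul_add (by positivity)
    _ = 1 + Ex F.q (fun w => Real.log (1 + |F.k₁ w|⁻¹)) := by
        rw [Ex_add, Ex_const F.h1]

/-- Two times `τ`, `τ'` with the same coefficient are close. -/
lemma count {M t s r τ τ' : ℤ} (hM : 0 < M) (ht : 0 ≤ t ∧ t < M) (hs : 0 ≤ s ∧ s < M)
    (hr : 0 ≤ r ∧ r < M) (hτ : 0 ≤ τ ∧ τ < M) (hτ' : 0 ≤ τ' ∧ τ' < M)
    (h : ct t s τ r = ct t s τ' r) :
    |((τ - τ' : ℤ) : ℝ)| ≤
      11 * (((M : ℝ) / max 1 |(t : ℝ) - s|) * ((M : ℝ) / max 1 |(r : ℝ) - t|)) := by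
  have hM1 : (1 : ℝ) ≤ M := by exact_mod_cast hM
  have r1 : (0 : ℝ) ≤ t := by exact_mod_cast ht.1
  have r2 : (t : ℝ) < M := by exact_mod_cast ht.2
  have r3 : (0 : ℝ) ≤ s := by exact_mod_cast hs.1
  have r4 : (s : ℝ) < M := by exact_mod_cast hs.2
  have r5 : (0 : ℝ) ≤ r := by exact_mod_cast hr.1
  have r6 : (r : ℝ) < M := by exact_mod_cast hr.2
  have r7 : (0 : ℝ) ≤ τ := by exact_mod_cast hτ.1
  have r8 : (τ : ℝ) < M := by exact_mod_cast hτ.2
  have r9 : (0 : ℝ) ≤ τ' := by exact_mod_cast hτ'.1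
  have r10 : (τ' : ℝ) < M := by exact_mod_cast hτ'.2
  have p1 : (0 : ℝ) < max 1 |(t : ℝ) - s| := lt_of_lt_of_le one_pos (le_max_left _ _)
  have p2 : (0 : ℝ) < max 1 |(r : ℝ) - t| := lt_of_lt_of_le one_pos (le_max_left _ _)
  set a : ℝ := (M : ℝ) / max 1 |(t : ℝ) - s| with ha
  set b : ℝ := (M : ℝ) / max 1 |(r : ℝ) - t| with hb
  have a1 : 1 ≤ a := by
    rw [ha, one_le_div p1]
    exact max_le hM1 (abs_le.mpr ⟨by linarith, by linarith⟩)
  have b1 : 1 ≤ b := by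
    rw [hb, one_le_div p2]
    exact max_le hM1 (abs_le.mpr ⟨by linarith, by linarith⟩)
  have hab : 1 ≤ a * b := one_le_mul_of_one_le_of_one_le a1 b1
  have hdiff : |((τ - τ' : ℤ) : ℝ)| ≤ M := by
    push_cast
    exact abs_le.mpr ⟨by linarith, by linarith⟩
  rcases eq_or_ne t s with hts | hts
  · have e1 : a = M := by
      rw [ha, hts, sub_self, abs_zero, max_eq_left zero_le_one, div_one]
    have e2 : (M : ℝ) ≤ a * b := by rw [e1]; nlinarith
    linarith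
  rcases eq_or_ne r t with hrt | hrt
  · have e1 : b = M := by
      rw [hb, hrt, sub_self, abs_zero, max_eq_left zero_le_one, div_one]
    have e2 : (M : ℝ) ≤ a * b := by rw [e1]; nlinarith
    linarith
  have i1 : (1 : ℝ) ≤ |(t : ℝ) - s| := by
    have : (1 : ℤ) ≤ |t - s| := Int.one_le_abs (sub_ne_zero.mpr hts)
    exact_mod_cast this
  have i2 : (1 : ℝ) ≤ |(r : ℝ) - t| := by
    have : (1 : ℤ) ≤ |r - t| := Int.one_le_abs (sub_ne_zero.mpr hrt)
    exact_mod_cast this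
  obtain ⟨h1, h2, h3, h4⟩ := hat_spec t s τ
  obtain ⟨h1', h2', h3', h4'⟩ := hat_spec t s τ'
  set H : ℤ := hat t s τ with hH
  set H' : ℤ := hat t s τ' with hH'
  have c1 : (H : ℝ) - t ≠ 0 := sub_ne_zero.mpr (by exact_mod_cast h1)
  have c2 : (H' : ℝ) - t ≠ 0 := sub_ne_zero.mpr (by exact_mod_cast h1')
  have d1 : (τ : ℝ) ≤ H := by exact_mod_cast h3
  have d2 : (H : ℝ) ≤ τ + 2 := by exact_mod_cast h4
  have d3 : (τ' : ℝ) ≤ H' := by exact_mod_cast h3'
  have d4 : (H' : ℝ) ≤ τ' + 2 := by exact_mod_cast h4'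
  have hlt := Int.abs_sub_lt_one_of_floor_eq_floor h
  have k1 : kap t s τ = ((H : ℝ) - s) / (H - t) := rfl
  have k2 : kap t s τ' = ((H' : ℝ) - s) / (H' - t) := rfl
  have e1 : kap t s τ * ((r : ℝ) - t) - kap t s τ' * ((r : ℝ) - t) =
      (((t : ℝ) - s) * ((r : ℝ) - t)) * ((H' : ℝ) - H) / ((H - t) * (H' - t)) := by
    rw [k1, k2]
    field_simp
    ring
  have q0 : 0 < |((H : ℝ) - t) * (H' - t)| := abs_pos.mpr (mul_ne_zero c1 c2)
  rw [e1, abs_div, div_lt_one q0, abs_mul, abs_mul, abs_mul] at hlt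
  have f1 : |(H : ℝ) - t| ≤ 3 * M := abs_le.mpr ⟨by linarith, by linarith⟩
  have f2 : |(H' : ℝ) - t| ≤ 3 * M := abs_le.mpr ⟨by linarith, by linarith⟩
  have f3 : |(t : ℝ) - s| * |(r : ℝ) - t| * |(H' : ℝ) - H| ≤ 9 * (M * M) := by
    calc |(t : ℝ) - s| * |(r : ℝ) - t| * |(H' : ℝ) - H| ≤ |(H : ℝ) - t| * |(H' : ℝ) - t| := hlt.le
      _ ≤ (3 * M) * (3 * M) := mul_le_mul f1 f2 (abs_nonneg _) (by positivity)
      _ = 9 * (M * M) := by ring
  have g1 : a * |(t : ℝ) - s| = M := by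
    rw [ha, max_eq_right i1]
    field_simp
  have g2 : b * |(r : ℝ) - t| = M := by
    rw [hb, max_eq_right i2]
    field_simp
  have f4 : |(H' : ℝ) - H| ≤ 9 * (a * b) := by
    have q1 : 0 < |(t : ℝ) - s| * |(r : ℝ) - t| := by positivity
    refine le_of_mul_le_mul_left ?_ q1
    calc |(t : ℝ) - s| * |(r : ℝ) - t| * |(H' : ℝ) - H| ≤ 9 * (M * M) := f3
      _ = 9 * ((a * |(t : ℝ) - s|) * (b * |(r : ℝ) - t|)) := by rw [g1, g2]
      _ = |(t : ℝ) - s| * |(r : ℝ) - t| * (9 * (a * b)) := by ring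
  have f5 : |((τ - τ' : ℤ) : ℝ)| ≤ |(H' : ℝ) - H| + 2 := by
    push_cast
    have h5 := neg_abs_le ((H' : ℝ) - H)
    have h6 := le_abs_self ((H' : ℝ) - H)
    exact abs_le.mpr ⟨by linarith, by linarith⟩
  linarith

lemma log_count {a b : ℝ} (ha : 0 ≤ a) (hb : 0 ≤ b) :
    Real.log (2 * (11 * (a * b)) + 1) ≤ 4 + Real.log (1 + a) + Real.log (1 + b) := by
  calc Real.log (2 * (11 * (a * b)) + 1) ≤ Real.log (22 * ((1 + a) * (1 + b))) := by
        apply Real.log_le_log (by positivity)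
        nlinarith [mul_nonneg ha hb]
    _ = Real.log 22 + (Real.log (1 + a) + Real.log (1 + b)) := by
        rw [Real.log_mul (by norm_num) (by positivity),
          Real.log_mul (by positivity) (by positivity)]
    _ ≤ _ := by
        have : Real.log 22 ≤ (4 : ℕ) := log_le_of_pow (by norm_num) (by norm_num)
        push_cast at this
        linarith

/-- The time `t₁`, given the first coefficient and `t, s, r`. -/
lemma t₁_of_c (F : Cf d J) {T : Type*} (W : F.Ω → T)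
    (hW : ∀ w w', 0 < F.q w → 0 < F.q w' → W w = W w' → F.t w = F.t w' ∧ F.s w = F.s w' ∧
      F.r w = F.r w' ∧ F.c w = F.c w') :
    CH F.q F.t₁ W ≤ 4 + F.eg F.t F.s + F.eg F.r F.t := by
  have h1 := CH_le_int F.hq F.h1 F.t₁ W
    (fun w => 11 * ((2 ^ J / max 1 |(F.t w : ℝ) - F.s w|) * (2 ^ J / max 1 |(F.r w : ℝ) - F.t w|)))
    (fun w w' a b e => by
      obtain ⟨e1, e2, e3, e4⟩ := hW w w' a b e
      have e5 : ct (F.t w) (F.s w) (F.t₁ w) (F.r w) = ct (F.t w) (F.s w) (F.t₁ w') (F.r w) := by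
        have e6 : ct (F.t w) (F.s w) (F.t₁ w) (F.r w) =
            ct (F.t w') (F.s w') (F.t₁ w') (F.r w') := e4
        rw [← e1, ← e2, ← e3] at e6
        exact e6
      have hM : (0 : ℤ) < ((2 ^ J : ℕ) : ℤ) := by positivity
      have := count hM (F.ht w a) (F.hs w a) (F.hr w a) (F.ht₁ w a) (F.ht₁ w' b) e5
      push_cast at this ⊢
      exact this)
  refine h1.trans ?_
  calc Ex F.q (fun w => Real.log (2 * (11 * ((2 ^ J / max 1 |(F.t w : ℝ) - F.s w|) *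
        (2 ^ J / max 1 |(F.r w : ℝ) - F.t w|))) + 1)) ≤
      Ex F.q (fun w => 4 + gp J (F.t w) (F.s w) + gp J (F.r w) (F.t w)) :=
        Ex_mono F.hq fun w _ => log_count (by positivity) (by positivity)
    _ = 4 + F.eg F.t F.s + F.eg F.r F.t := by
        rw [Ex_add, Ex_add, Ex_const F.h1]
        rfl

/-- The energies are at most their sum. -/
lemma eg_le (F : Cf d J) : F.eg F.t F.s + F.eg F.r F.t ≤ en F := by
  have g2 := eg_nonneg F F.t₁ F.t
  have g3 := eg_nonneg F F.t₁ F.s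
  have g5 := eg_nonneg F F.r F.s
  have g5' := eg_nonneg F F.r F.t₁
  have g6 := eg_nonneg F F.tr F.s
  have g7 := eg_nonneg F F.ta F.s
  have g8 := eg_nonneg F F.ta F.tr
  have g9 := eg_nonneg F F.ta F.TO
  unfold en
  linarith

end UFC42

open UFC42 in
/-- Row UFC2. -/
theorem ufc2 (hKPS : KPS2Stmt) (hUPT : UPT2Stmt) : UFC2Stmt := by
  intro d
  obtain ⟨C₁, hC₁0, hC₁⟩ := hKPS d
  obtain ⟨⟨C₂, hC₂0, hC₂⟩, -⟩ := hUPT d
  -- the ratio
  have hk : ∀ (J : ℕ) (F : Cf d J) (L sb K G : ℝ), Okk F L sb K G →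
      1 + Ex F.q (fun w => Real.log (1 + |F.k₁ w|⁻¹)) ≤
        (C₁ + 1) * (G + 1 + Real.log (J + 2)) := by
    intro J F L sb K G h
    have g1 := hC₁ J F
    have n1 := Ex_log_nonneg F.hq (fun w => |F.k₁ w|) (fun w => abs_nonneg _)
    have n3 := Ex_log_nonneg F.hq (fun w => |F.k₂ w|) (fun w => abs_nonneg _)
    have n4 := Ex_log_nonneg F.hq (fun w => |F.k₂ w|⁻¹) (fun w => by positivity)
    have hlog := log_nn J
    have hG := h.G0
    have hge : C₁ * (en F + 1 + Real.log (J + 2)) ≤ C₁ * (G + 1 + Real.log (J + 2)) :=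
      mul_le_mul_of_nonneg_left (by linarith [h.ge]) hC₁0
    linarith
  -- (1)
  have f1 : ∀ (J : ℕ) (F : Cf d J) (L sb K G : ℝ), Okk F L sb K G →
      lm J - CH F.q F.c (fun w => (F.v3 w, (F.t w, F.s w, F.t₁ w, F.tr w, F.ta w), F.Z w)) ≤
        1 * K + (C₁ + 1) * (G + 1 + Real.log (J + 2)) := by
    intro J F L sb K G h
    have a1 := CH_mono_cond F.hq (X := F.r)
      (W' := fun w => (F.v3 w, (F.t w, F.s w), (F.t₁ w, F.tr w, F.ta w), F.Z w))
      (W := fun w => (F.v3 w, (F.t w, F.s w, F.t₁ w, F.tr w, F.ta w), F.Z w)) (by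
        intro w w' _ _ e
        simp only [Prod.mk.injEq] at e ⊢
        tauto)
    have a2 := CH_le_add F.hq F.r F.c
      (fun w => (F.v3 w, (F.t w, F.s w, F.t₁ w, F.tr w, F.ta w), F.Z w))
    have a3 := r_of_c F (fun w => (F.v3 w, (F.t w, F.s w, F.t₁ w, F.tr w, F.ta w), F.Z w)) (by
      intro w w' _ _ e
      simp only [Prod.mk.injEq] at e
      obtain ⟨_, ⟨e1, e2, e3, _⟩, _⟩ := e
      refine ⟨?_, e1⟩
      unfold Cf.k₁
      rw [e1, e2, e3])
    have a4 := hk J F L sb K G h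
    have a5 := h.cr
    linarith
  -- (4)
  have f4 : ∀ (J : ℕ) (F : Cf d J) (L sb K G : ℝ), Okk F L sb K G →
      eta F ≤ 1 * K + (C₁ + 1) * (G + 1 + Real.log (J + 2)) := by
    intro J F L sb K G h
    have a1 := CH_mono_cond F.hq (X := F.c)
      (W' := fun w => (F.v3 w, (F.t w, F.s w, F.t₁ w, F.tr w, F.ta w), F.Z w))
      (W := fun w => (F.v01 w, (F.t w, F.s w), F.Z w)) (by
        intro w w' _ _ e
        simp only [Prod.mk.injEq, Cf.v3, Cf.v01] at e ⊢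
        tauto)
    have a2 := f1 J F L sb K G h
    unfold eta
    linarith
  refine ⟨⟨C₁ + 1, by linarith, f1⟩, ⟨0, le_rfl, ?_⟩, ⟨5, by norm_num, ?_⟩,
    ⟨C₁ + 1, by linarith, f4⟩, ⟨C₂, hC₂0, ?_⟩⟩
  · intro J F L sb K G h
    have a1 := CH_chain F.hq F.c F.s (fun w => (F.v01 w, F.t w, F.Z w))
    have a2 : CH F.q (fun w => (F.c w, F.s w)) (fun w => (F.v01 w, F.t w, F.Z w)) =
        CH F.q (fun w => (F.s w, F.c w)) (fun w => (F.v01 w, F.t w, F.Z w)) := by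
      refine CH_congr F.hq ?_ ?_ ?_ ?_ <;>
      · intro w w' _ _ e
        try simp only [Prod.mk.injEq] at e ⊢
        tauto
    have a3 : CH F.q F.c (fun w => (F.s w, (F.v01 w, F.t w, F.Z w))) =
        CH F.q F.c (fun w => (F.v01 w, (F.t w, F.s w), F.Z w)) := by
      refine CH_congr F.hq ?_ ?_ ?_ ?_ <;>
      · intro w w' _ _ e
        try simp only [Prod.mk.injEq] at e ⊢
        tauto
    have a4 := h.cs
    show 2 * lm J - CH F.q (fun w => (F.s w, F.c w)) (fun w => (F.v01 w, F.t w, F.Z w)) - eta F ≤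
      1 * K + 0 * (G + 1 + Real.log (J + 2))
    unfold eta
    linarith
  · intro J F L sb K G h
    have a1 := CH_bayes F.hq F.r F.c (fun w => (F.v01 w, (F.t w, F.s w), F.Z w))
    have a2 : CH F.q F.r (fun w => (F.c w, (F.v01 w, (F.t w, F.s w), F.Z w))) =
        CH F.q F.r (fun w => (F.v01 w, (F.t w, F.s w, F.c w), F.Z w)) := by
      refine CH_congr F.hq ?_ ?_ ?_ ?_ <;>
      · intro w w' _ _ e
        try simp only [Prod.mk.injEq] at e ⊢
        tauto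
    have a3 := CH_mono_cond F.hq (X := F.r)
      (W' := fun w => (F.v3 w, (F.t w, F.s w), (F.t₁ w, F.tr w, F.ta w), F.Z w))
      (W := fun w => (F.v01 w, (F.t w, F.s w), F.Z w)) (by
        intro w w' _ _ e
        simp only [Prod.mk.injEq, Cf.v3, Cf.v01] at e ⊢
        tauto)
    have a4 := CH_mono_cond F.hq (X := F.t₁)
      (W' := fun w => (F.v3 w, (F.t w, F.s w), (F.r w, F.tr w, F.ta w), F.Z w))
      (W := fun w => (F.r w, (F.v01 w, (F.t w, F.s w), F.Z w))) (by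
        intro w w' _ _ e
        simp only [Prod.mk.injEq, Cf.v3, Cf.v01] at e ⊢
        tauto)
    have a5 := CH_le_add F.hq F.t₁ F.c (fun w => (F.r w, (F.v01 w, (F.t w, F.s w), F.Z w)))
    have a6 := t₁_of_c F (fun w => (F.c w, (F.r w, (F.v01 w, (F.t w, F.s w), F.Z w)))) (by
      intro w w' _ _ e
      simp only [Prod.mk.injEq] at e
      tauto)
    have a7 := eg_le F
    have b1 := h.cr
    have b2 := h.ct₁
    have b3 := h.ge
    have hlog := log_nn J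
    have hG := h.G0
    show lm J - CH F.q F.r (fun w => (F.v01 w, (F.t w, F.s w, F.c w), F.Z w)) + eta F ≤
      2 * K + 5 * (G + 1 + Real.log (J + 2))
    unfold eta
    linarith
  · intro J F L sb K G h
    have a1 := hC₂ J F
    have a2 := CH_mono_cond F.hq (X := F.c) (W' := fun w => (F.v01 w, (F.t w, F.s w), F.Z w))
      (W := F.Z) (by
        intro w w' _ _ e
        simp only [Prod.mk.injEq] at e
        exact e.2.2)
    have hge : C₂ * (en F + 1 + Real.log (J + 2)) ≤ C₂ * (G + 1 + Real.log (J + 2)) :=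
      mul_le_mul_of_nonneg_left (by linarith [h.ge]) hC₂0
    show -eta F ≤ 0 * K + C₂ * (G + 1 + Real.log (J + 2))
    unfold eta
    linarith

end Pool.LQ
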