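import Pool.Agent.H60.LQ.Two
import Pool.Agent.H91.LQ.DIR2

/-!
# (DIR3): `O - C` is parallel to the line 1
-/

set_option autoImplicit false

namespace Pool.LQ

open Finset Real
open Pool.Agent.H49.Ent Pool.Agent.H32.Dense Pool.KTH
open Pool.Agent.H91.KTH (Ex_gp_nonneg Ex_log_nonneg)

variable {d J : ℕ}

/-- **DIR3.** -/
theorem dir3 (hCGP : CGP2Stmt) : DIR3Stmt := by
  intro d
  obtain ⟨C, C0, hC⟩ := hCGP d
  refine ⟨d * (C + 2), by positivity, ?_⟩
  intro J F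
  have h1 := v_of_two (J := J) F.hq F.h1 F.v₁ F.hv₁
    (fun w => pos (2 ^ J) (F.u₀ w) (F.v₀ w) (F.s w)) F.c
    (fun w => (F.O w, F.C w, F.Z w)) (by
      intro w w' _ _ h
      simp only [Cf.O, Cf.C, pp, Prod.mk.injEq] at h
      obtain ⟨⟨a, b⟩, ⟨c, e⟩, _⟩ := h
      refine ⟨by omega, e, ?_⟩
      unfold xf at b
      exact b)
  have h2 := hC J F
  have n1 := Ex_log_nonneg F.hq (fun w => |(F.c w : ℝ)| / 2 ^ J) (fun w => by positivity)
  have n2 := Ex_log_nonneg F.hq (fun w => |(F.c₂ w : ℝ)| / 2 ^ J) (fun w => by positivity)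
  have n3 := Ex_log_nonneg F.hq (fun w => 2 ^ J / max 1 |(F.c₂ w : ℝ)|) (fun w => by positivity)
  have h3 : Ex F.q (fun w => Real.log (1 + 2 ^ J / max 1 |(F.c w : ℝ)|)) ≤
      C * (en F + 1 + Real.log (J + 2)) := by
    unfold Cf.big Cf.sml at h2
    linarith
  have hlog : 0 ≤ Real.log ((J : ℝ) + 2) := Real.log_nonneg (by
    have : (0 : ℝ) ≤ J := Nat.cast_nonneg J
    linarith)
  have hen : 0 ≤ en F := by
    have n0 := Ex_gp_nonneg (J := J) F.hq F.t F.s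
    have n2 := Ex_gp_nonneg (J := J) F.hq F.t₁ F.t
    have n3 := Ex_gp_nonneg (J := J) F.hq F.t₁ F.s
    have n4 := Ex_gp_nonneg (J := J) F.hq F.r F.t
    have n5 := Ex_gp_nonneg (J := J) F.hq F.r F.s
    have n6 := Ex_gp_nonneg (J := J) F.hq F.r F.t₁
    have n7 := Ex_gp_nonneg (J := J) F.hq F.tr F.s
    have n8 := Ex_gp_nonneg (J := J) F.hq F.ta F.s
    have n9 := Ex_gp_nonneg (J := J) F.hq F.ta F.tr
    have n10 := Ex_gp_nonneg (J := J) F.hq F.ta F.TO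
    unfold en Cf.eg
    linarith
  show CH F.q F.v₁ (fun w => (F.O w, F.C w, F.Z w)) ≤
    d * (C + 2) * (en F + 1 + Real.log (J + 2))
  refine h1.trans ?_
  have hd : (0 : ℝ) ≤ d := Nat.cast_nonneg d
  rw [mul_assoc]
  refine mul_le_mul_of_nonneg_left ?_ hd
  have h4 : (C + 2) * (en F + 1 + Real.log ((J : ℝ) + 2)) =
      C * (en F + 1 + Real.log (J + 2)) + 2 * (en F + 1 + Real.log (J + 2)) := by ring
  linarith

end Pool.LQ
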